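import Mathlib
import Pool.Agent.X331.AF.Aff
import Pool.Agent.W235.RM.Final

set_option autoImplicit false

/-!
# The Bombieri-Lang-Vojta equivalence for integral points given by arithmetic functions

Let `V` be an affine variety over a number field `K`, the zeros in affine `n`-space of finitely many
polynomials `F` with coefficients in `𝓞 K`, and `V'` the closed subset of `V` given by `G`; let `σ` be
an embedding of `K` in `ℂ`.

We consider the sequences `P(1), P(2), …` of vectors of arithmetic functions with values in a field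
`L ⊇ K`, for example

  `(σ_{κ_1}(m), …, σ_{κ_n}(m))`, `(m, φ(m), σ(m), d(m), ω(m), rad(m), …)`, …

The only condition (`AffCurves r s P`) is that for every `m` the point `P (m p)`, `p` a prime number
larger than all prime factors of `m`, is given by one of `s` polynomial curves `∑ c_a T ^ (l_a)` with
`r` terms, which depend on `m`, at `T = p`.  This holds for all vectors of multiplicative functions,
and of additive functions, which are given by `r`-term polynomials on each of finitely many classes of
prime numbers (with any values at the higher prime powers), for the greatest and the least prime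
factor, for polynomials, and so on; the exponents are arbitrary.

The following are equivalent:

* (`LinesIn`) every nonconstant polynomial map `ℂ → V(ℂ)` has image in `V'(ℂ)`;
* (`ArithBound`) for ALL fields `L ⊇ K`, all `r`, `s`, all these sequences and all `N`, at most
  `(s (d + 1) ^ r + 60000) N exp (-√(log N) / 4)` points of `V(L)` outside of `V'` are among
  `P(1), …, P(N)`, where `d` bounds the degrees of the polynomials `F`;
* (`IntegralSparse`) for all number fields `L ⊇ K`, all finite sets `S` of primes of `L` and all these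
  sequences of `S`-integral vectors, with `s = 1`, this number is `o(N)`.

Both conditions of the Bombieri-Lang-Vojta conjecture, (i) on entire curves and (ii) on `S`-integral
points, imply these.

Method: a polynomial curve with `r` terms which is not contained in `V` meets `V` in a bounded number
of points `P (m p)`, uniformly in the exponents (Descartes), and the curves contained in `V` are
constant or contained in `V'`; so each `m` gives a bounded number of points outside of `V'`, and
almost all `n ≤ N` are of the form `m p` with `m ≤ N exp (-√(log N) / 4)`.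
-/

namespace Pool.Agent.Results.MP_e97a4d_nt.ArithmeticFunctionIntegral

open MvPolynomial Filter IsDedekindDomain Pool.Agent.X331.AF
open Pool.Agent.H159R3.Exp (FinitelyManyIntegral intPoints)
open Pool.Agent.W235.RM (EntireCurvesIn)
open scoped NumberField

section defs

variable {K : Type} [Field K] {ι κ : Type} {n : ℕ}

/-- Every nonconstant polynomial map from the complex line to `V` lies in `V'`. -/
def LinesIn (σ : K →+* ℂ) (F : ι → MvPolynomial (Fin n) (𝓞 K))
    (G : κ → MvPolynomial (Fin n) (𝓞 K)) : Prop :=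
  ∀ p : Fin n → Polynomial ℂ,
    (∀ z i, eval₂ (σ.comp (algebraMap (𝓞 K) K)) (fun j => (p j).eval z) (F i) = 0) →
    (∃ z w, (fun j => (p j).eval z) ≠ fun j => (p j).eval w) →
    ∀ z l, eval₂ (σ.comp (algebraMap (𝓞 K) K)) (fun j => (p j).eval z) (G l) = 0

/-- the points of `V(L)` outside of `V'` among `P(1), …, P(N)` -/
def outside (F : ι → MvPolynomial (Fin n) (𝓞 K)) (G : κ → MvPolynomial (Fin n) (𝓞 K))
    {L : Type} [Field L] [Algebra K L] (P : ℕ → Fin n → L) (N : ℕ) : Set (Fin n → L) :=
  {x | (∀ i, eval₂ ((algebraMap K L).comp (algebraMap (𝓞 K) K)) x (F i) = 0) ∧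
    (∃ l, eval₂ ((algebraMap K L).comp (algebraMap (𝓞 K) K)) x (G l) ≠ 0) ∧
    ∃ m, 1 ≤ m ∧ m ≤ N ∧ P m = x}

/-- the explicit bound, over all fields `L ⊇ K` -/
def ArithBound (F : ι → MvPolynomial (Fin n) (𝓞 K)) (G : κ → MvPolynomial (Fin n) (𝓞 K)) :
    Prop :=
  ∀ d : ℕ, (∀ i, (F i).totalDegree ≤ d) → ∀ (L : Type) [Field L] [Algebra K L] (r s : ℕ)
    (P : ℕ → Fin n → L), AffCurves r s P → ∀ N : ℕ, 1 ≤ N → ((outside F G P N).ncard : ℝ) ≤
      (s * (d + 1) ^ r + 60000) * N * Real.exp (-(√(Real.log N) / 4))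

/-- the points given by sequences of `S`-integral vectors have density zero -/
def IntegralSparse (F : ι → MvPolynomial (Fin n) (𝓞 K)) (G : κ → MvPolynomial (Fin n) (𝓞 K)) :
    Prop :=
  ∀ (L : Type) [Field L] [NumberField L] [Algebra K L] (S : Set (HeightOneSpectrum (𝓞 L))),
    S.Finite → ∀ (r : ℕ) (P : ℕ → Fin n → L), AffCurves r 1 P →
      (∀ m j, P m j ∈ S.integer L) →
        Tendsto (fun N : ℕ => ((outside F G P N).ncard : ℝ) / N) atTop (nhds 0)

/-- there are no polynomial curves over number fields -/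
def NoLine (F : ι → MvPolynomial (Fin n) (𝓞 K)) (G : κ → MvPolynomial (Fin n) (𝓞 K)) : Prop :=
  ∀ (L : Type) [Field L] [NumberField L] [Algebra K L] (p : Fin n → Polynomial L),
    ¬ ACur ((algebraMap K L).comp (algebraMap (𝓞 K) K)) F G p

end defs

variable {K : Type} [Field K] [NumberField K] {ι κ : Type} {n : ℕ}
  {F : ι → MvPolynomial (Fin n) (𝓞 K)} {G : κ → MvPolynomial (Fin n) (𝓞 K)}

theorem not_acur (h : NoLine F G) (E : Type) [Field E] [Algebra K E] (p : Fin n → Polynomial E) :
    ¬ ACur ((algebraMap K E).comp (algebraMap (𝓞 K) K)) F G p := by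
  intro hp
  obtain ⟨L, _, _, _, p', hp'⟩ := ACur.spec (k := K) (E := E) (algebraMap (𝓞 K) K) hp
  have hchar : CharZero L := charZero_of_injective_algebraMap (algebraMap K L).injective
  have hfin : FiniteDimensional ℚ L := FiniteDimensional.trans ℚ K L
  have hnf : NumberField L := ⟨⟩
  exact h L p' hp'

theorem bound_of_noLine (h : NoLine F G) : ArithBound F G := by
  classical
  intro d hd L _ _ r s P hP N hN
  have hchar : CharZero L := charZero_of_injective_algebraMap
    (FaithfulSMul.algebraMap_injective K L)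
  set φ : 𝓞 K →+* L := (algebraMap K L).comp (algebraMap (𝓞 K) K) with hφ
  let Q : (Fin n → L) → Prop := fun x => (∀ i, eval₂ φ x (F i) = 0) ∧ ∃ l, eval₂ φ x (G l) ≠ 0
  have heq : outside F G P N = affPts Q P N := by
    ext x
    constructor
    · rintro ⟨h1, h2, m, hm1, hm2, rfl⟩
      exact ⟨m, hm1, hm2, ⟨h1, h2⟩, rfl⟩
    · rintro ⟨m, hm1, hm2, ⟨h1, h2⟩, rfl⟩
      exact ⟨h1, h2, m, hm1, hm2, rfl⟩
  rw [heq]
  refine aff_bound φ F d hd Q (fun v hv => hv.1) ?_ s P hP N hN
  rintro p hp ⟨t, -, l, hl⟩ i
  by_contra hcon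
  refine not_acur h L p ⟨hp, ⟨l, fun h0 => hl ?_⟩, i, ?_⟩
  · have h1 := congrArg (Polynomial.eval t) h0
    rwa [eval₂_eval', Polynomial.eval_zero] at h1
  · by_contra hno
    push Not at hno
    apply hcon
    refine ⟨(p i).coeff 0, Polynomial.ext fun w => ?_⟩
    rw [Polynomial.coeff_C]
    split_ifs with hw
    · rw [hw]
    · exact hno w (by omega)

theorem tendsto_bound (A : ℝ) :
    Tendsto (fun N : ℕ => A * Real.exp (-(√(Real.log N) / 4))) atTop (nhds 0) := by
  have h1 : Tendsto (fun N : ℕ => √(Real.log N) / 4) atTop atTop := by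
    refine Tendsto.atTop_div_const (by norm_num) ?_
    exact Real.tendsto_sqrt_atTop.comp (Real.tendsto_log_atTop.comp tendsto_natCast_atTop_atTop)
  have h2 := (Real.tendsto_exp_neg_atTop_nhds_zero.comp h1).const_mul A
  rw [mul_zero] at h2
  exact h2

omit [NumberField K] in
theorem sparse_of_bound [Finite ι] (h : ArithBound F G) : IntegralSparse F G := by
  intro L _ _ _ S _ r P hP _
  obtain ⟨d, hd⟩ := (Set.finite_range fun i => (F i).totalDegree).bddAbove
  have hd' : ∀ i, (F i).totalDegree ≤ d := fun i => hd ⟨i, rfl⟩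
  have h1 := tendsto_bound (((1 : ℕ) : ℝ) * (d + 1) ^ r + 60000)
  refine squeeze_zero' (Eventually.of_forall fun N => by positivity) ?_ h1
  filter_upwards [eventually_ge_atTop 1] with N hN
  have h2 := h d hd' L r 1 P hP N hN
  have hNR : (0 : ℝ) < N := by exact_mod_cast hN
  rw [div_le_iff₀ hNR]
  calc ((outside F G P N).ncard : ℝ) ≤ _ := h2
    _ = _ := by ring

/-- the values of finitely many polynomials at the natural numbers are `S`-integral -/
theorem integral_values {L : Type} [Field L] [NumberField L] (p : Fin n → Polynomial L) :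
    ∃ S : Set (HeightOneSpectrum (𝓞 L)), S.Finite ∧
      ∀ (m : ℕ) j, (p j).eval (m : L) ∈ S.integer L := by
  classical
  let S : Set (HeightOneSpectrum (𝓞 L)) :=
    ⋃ j, ⋃ l ∈ (p j).support, HeightOneSpectrum.Support (𝓞 L) ((p j).coeff l)
  have hS : S.Finite := by
    refine Set.finite_iUnion fun j => ?_
    exact Set.Finite.biUnion (Finset.finite_toSet _) fun l _ => HeightOneSpectrum.Support.finite _ _
  have hmem : ∀ x : L, HeightOneSpectrum.Support (𝓞 L) x ⊆ S → x ∈ S.integer L := by
    intro x hx v hv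
    by_contra hcon
    exact hv (hx (not_le.mp hcon))
  have hc : ∀ j, ∀ l ∈ (p j).support, (p j).coeff l ∈ S.integer L := fun j l hl =>
    hmem _ (fun v hv => Set.mem_iUnion.mpr ⟨j, Set.mem_biUnion hl hv⟩)
  refine ⟨S, hS, fun m j => ?_⟩
  rw [Polynomial.eval_eq_sum, Polynomial.sum_def]
  apply (S.integer L).sum_mem
  intro l hl
  exact (S.integer L).mul_mem (hc j l hl) (pow_mem (natCast_mem _ m) l)

omit [NumberField K] in
theorem noLine_of_sparse (h : IntegralSparse F G) : NoLine F G := by
  classical
  intro L _ _ _ p ⟨h1, ⟨l, hne⟩, hnc⟩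
  set φ : 𝓞 K →+* L := (algebraMap K L).comp (algebraMap (𝓞 K) K) with hφ
  let Q : (Fin n → L) → Prop := fun x => (∀ i, eval₂ φ x (F i) = 0) ∧ ∃ l, eval₂ φ x (G l) ≠ 0
  obtain ⟨D, δ, hδ, hPC, N₀, hlow⟩ := aff_lower p hnc Q
    (eval₂ (Polynomial.C.comp φ) p (G l)) hne (by
    intro m hm
    refine ⟨fun i => ?_, l, ?_⟩
    · have h2 := congrArg (Polynomial.eval (m : L)) (h1 i)
      rwa [eval₂_eval', Polynomial.eval_zero] at h2
    · rwa [eval₂_eval'] at hm)
  obtain ⟨S, hS, hint⟩ := integral_values p
  have h2 := h L S hS D (fun (m : ℕ) (i : Fin n) => (p i).eval (m : L)) hPC hint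
  have h3 := h2.eventually (gt_mem_nhds hδ)
  obtain ⟨N, hN1, hN2, hN3⟩ :=
    (h3.and ((eventually_ge_atTop N₀).and (eventually_ge_atTop 1))).exists
  have hNR : (0 : ℝ) < N := by exact_mod_cast hN3
  have heq : outside F G (fun (m : ℕ) (i : Fin n) => (p i).eval (m : L)) N =
      affPts Q (fun (m : ℕ) (i : Fin n) => (p i).eval (m : L)) N := by
    ext x
    constructor
    · rintro ⟨h1, h2, m, hm1, hm2, rfl⟩
      exact ⟨m, hm1, hm2, ⟨h1, h2⟩, rfl⟩
    · rintro ⟨m, hm1, hm2, ⟨h1, h2⟩, rfl⟩
      exact ⟨h1, h2, m, hm1, hm2, rfl⟩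
  rw [heq, div_lt_iff₀ hNR] at hN1
  exact absurd (hlow N hN2) (not_le.2 hN1)

theorem lines_of_noLine (σ : K →+* ℂ) (h : NoLine F G) : LinesIn σ F G := by
  intro p hp ⟨z, w, hzw⟩ u l
  by_contra hcon
  let _ : Algebra K ℂ := σ.toAlgebra
  refine not_acur h ℂ p ⟨fun i => ?_, ⟨l, fun h0 => hcon ?_⟩, ?_⟩
  · apply Polynomial.funext
    intro t
    rw [eval₂_eval', Polynomial.eval_zero]
    exact hp t i
  · have h1 := congrArg (Polynomial.eval u) h0
    rw [eval₂_eval', Polynomial.eval_zero] at h1
    exact h1
  · by_contra hno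
    push Not at hno
    apply hzw
    funext j
    have h1 : p j = Polynomial.C ((p j).coeff 0) := by
      refine Polynomial.ext fun w => ?_
      rw [Polynomial.coeff_C]
      split_ifs with hw
      · rw [hw]
      · exact hno j w (by omega)
    rw [h1, Polynomial.eval_C, Polynomial.eval_C]

theorem noLine_of_lines (σ : K →+* ℂ) (h : LinesIn σ F G) : NoLine F G := by
  classical
  intro L _ _ _ p ⟨h1, ⟨l, hne⟩, j, i, hi, hji⟩
  let _ : Algebra K ℂ := σ.toAlgebra
  have : Algebra.IsAlgebraic K L := by
    have := NumberField.to_finiteDimensional (K := L)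
    have : IsScalarTower ℚ K L := by infer_instance
    have : FiniteDimensional K L := FiniteDimensional.right ℚ K L
    infer_instance
  let τ : L →ₐ[K] ℂ := IsAlgClosed.lift
  have hτi : Function.Injective τ := (τ : L →+* ℂ).injective
  have hcomp : (τ : L →+* ℂ).comp ((algebraMap K L).comp (algebraMap (𝓞 K) K)) =
      σ.comp (algebraMap (𝓞 K) K) := by
    ext a
    exact τ.commutes _
  have hmap : ∀ Q : MvPolynomial (Fin n) (𝓞 K),
      (eval₂ (Polynomial.C.comp ((algebraMap K L).comp (algebraMap (𝓞 K) K))) p Q).map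
        (τ : L →+* ℂ) = eval₂ (Polynomial.C.comp (σ.comp (algebraMap (𝓞 K) K)))
          (fun j => (p j).map (τ : L →+* ℂ)) Q := by
    intro Q
    rw [eval₂_map'', hcomp]
  have hev : ∀ (Q : MvPolynomial (Fin n) (𝓞 K)) (z : ℂ),
      eval₂ (σ.comp (algebraMap (𝓞 K) K)) (fun j => ((p j).map (τ : L →+* ℂ)).eval z) Q =
        ((eval₂ (Polynomial.C.comp ((algebraMap K L).comp (algebraMap (𝓞 K) K))) p Q).map
          (τ : L →+* ℂ)).eval z := by
    intro Q z
    rw [hmap, eval₂_eval']
  have h2 := h (fun j => (p j).map (τ : L →+* ℂ)) (fun z i => by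
    rw [hev, h1 i, Polynomial.map_zero, Polynomial.eval_zero]) (by
    by_contra hcon
    push Not at hcon
    have h3 : (p j).map (τ : L →+* ℂ) = Polynomial.C (((p j).map (τ : L →+* ℂ)).eval 0) := by
      apply Polynomial.funext
      intro z
      rw [Polynomial.eval_C]
      exact congrFun (hcon z 0) j
    have h4 := congrArg (fun f => Polynomial.coeff f i) h3
    simp only [Polynomial.coeff_map, Polynomial.coeff_C] at h4
    rw [if_neg (by omega)] at h4
    exact hji ((map_eq_zero_iff (τ : L →+* ℂ) hτi).1 h4))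
  apply hne
  apply Polynomial.map_injective (τ : L →+* ℂ) hτi
  rw [Polynomial.map_zero]
  apply Polynomial.funext
  intro z
  rw [← hev, h2 z l, Polynomial.eval_zero]

omit [NumberField K] in
theorem sparse_of_finite (h : FinitelyManyIntegral F G) : IntegralSparse F G := by
  intro L _ _ _ S hS r P _ hint
  have hfin := h L S hS
  set C : ℕ := (intPoints F L S \ intPoints G L S).ncard with hC
  have hsub : ∀ N, outside F G P N ⊆ intPoints F L S \ intPoints G L S := by
    rintro N x ⟨h1, ⟨l, hl⟩, m, -, -, rfl⟩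
    exact ⟨⟨fun j => hint m j, h1⟩, fun hx => hl (hx.2 l)⟩
  have h1 : Tendsto (fun N : ℕ => (C : ℝ) / N) atTop (nhds 0) :=
    tendsto_const_div_atTop_nhds_zero_nat (C : ℝ)
  refine squeeze_zero (fun N => by positivity) (fun N => ?_) h1
  have h2 : (outside F G P N).ncard ≤ C := Set.ncard_le_ncard (hsub N) hfin
  have h3 : ((outside F G P N).ncard : ℝ) ≤ C := by exact_mod_cast h2
  exact div_le_div_of_nonneg_right h3 (Nat.cast_nonneg N)

omit [NumberField K] in
theorem lines_of_entire (σ : K →+* ℂ) (h : EntireCurvesIn σ F G) : LinesIn σ F G := by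
  intro p hp hnc z l
  exact h (fun z j => (p j).eval z) (differentiable_pi.2 fun j => (p j).differentiable) hp hnc z l

theorem result {K : Type} [Field K] [NumberField K] (σ : K →+* ℂ) {ι κ : Type} [Finite ι] {n : ℕ}
    (F : ι → MvPolynomial (Fin n) (𝓞 K)) (G : κ → MvPolynomial (Fin n) (𝓞 K)) :
    List.TFAE [LinesIn σ F G, ArithBound F G, IntegralSparse F G] ∧
    (EntireCurvesIn σ F G → ArithBound F G) ∧
    (FinitelyManyIntegral F G → ArithBound F G) := by
  refine ⟨?_, fun h => bound_of_noLine (noLine_of_lines σ (lines_of_entire σ h)),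
    fun h => bound_of_noLine (noLine_of_sparse (sparse_of_finite h))⟩
  tfae_have 1 → 2 := fun h => bound_of_noLine (noLine_of_lines σ h)
  tfae_have 2 → 3 := sparse_of_bound
  tfae_have 3 → 1 := fun h => lines_of_noLine σ (noLine_of_sparse h)
  tfae_finish

end Pool.Agent.Results.MP_e97a4d_nt.ArithmeticFunctionIntegral
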