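import Mathlib
import Pool.Agent.X251.WA.AffConv

set_option autoImplicit false

/-!
# The Bombieri-Lang-Vojta equivalence for weighted automata and regular sequences

Let `V` be an affine variety over a number field `K`, the zeros in affine `n`-space of finitely many
polynomials `F` with coefficients in `𝓞 K`, and `V'` the closed subset of `V` given by `G`; let `σ` be
an embedding of `K` in `ℂ`.

A weighted automaton of size `r` over a field `L ⊇ K`, with the finite alphabet `A`, consists of
arbitrary (also singular) `r × r` matrices `μ(a)`, `a ∈ A`, an `n × r` matrix `M` and a vector `v`; a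
word `w = a₁ ⋯ a_m` represents the vector `M μ(a₁) ⋯ μ(a_m) v` (`pt M μ v w`).

A sequence `x(0), x(1), …` of vectors over `L` is `b`-regular of rank at most `r` (`Reg b r x`;
Allouche and Shallit) if its coordinates are in a space of sequences of dimension at most `r` which
contains `(f(b m + c))_m` for all its elements `f` and `0 ≤ c < b`.

Let `b ≥ 2`.  The following are equivalent:

* (`GmCurvesIn`) every nonconstant map from the punctured complex line to `V` lies in `V'`;
* (`AutomatonBound`) for all weighted automata of size `r` with `q` letters over number fields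
  `L ⊇ K` of degree at most `D`, all words of which represent points of `V(L)`: the points outside
  of `V'` are represented by words of length less than `Λ = Lam (NA r D) q (r + 1)`; in particular
  at most `1 + q + ⋯ + q ^ (Λ - 1)` points are outside of `V'`, a number which does not depend on
  `K`, `V` or `V'`;
* (`RegularBound`) for all `c ≥ 2`, all number fields `L ⊇ K` of degree at most `D` and all
  `c`-regular sequences of rank at most `r` of points of `V(L)`, the values outside of `V'` occur for
  arguments less than `c ^ Λ`, `Λ = Lam (NA r D) c (r + 1)`;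
* (`RegularIntegral b`) for all number fields `L ⊇ K` and all finite sets `S` of primes of `L`, a
  `b`-regular sequence of `S`-integral points of `V` has only finitely many values outside of `V'`.

Both conditions of the Bombieri-Lang-Vojta conjecture, (i) on entire curves and (ii) on `S`-integral
points, imply these.

Here `NA r D = ∑_{s ≤ r} ∏_{f = 1}^{D} |GL_s(𝔽_{2^f})| |GL_s(𝔽_{3^f})|`, `Lam N q 0 = 1` and
`Lam N q (m + 1) = Lam N q m (N q ^ (Lam N q m) + 1)`.

Compare `IteratedEquivalence` (library), which contains the case of orbits of groups, that is of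
automata with invertible matrices whose inverses are also letters.

Method: a long word has a factor `q v₁ q v₂ ⋯ v_N q`, `q` not empty, whose matrix has the rank of
`μ(q)` (`good_of_long`); so the matrices `μ(q v_i)` act as invertible matrices on the column space of
`μ(q)`.  The products of these and, by Zariski density, the elements of the group which they generate
give points of `V`.  The orbit of this group is constant, off `V'`, along the cosets of a normal
subgroup of bounded index (library: `neat_constA`, `NN_index_bd`), so that some of the `q v_i` can be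
removed.  Conversely, if `x(t)` is a nonconstant map from the punctured line to `V`, then
`m ↦ x(2 ^ s(m))`, `s(m)` the sum of the digits of `m` in base `b`, is `b`-regular.
-/

namespace Pool.Agent.Results.MP_e97a4d_nt.AutomataEquivalence

open MvPolynomial IsDedekindDomain Pool.Agent.H159R3.Exp Pool.Agent.W235.RM Pool.Agent.Y377.AO
  Pool.Agent.TH717.GO Pool.Agent.X251.WA Pool.Agent.X251.WA.A
open scoped NumberField

variable {K : Type} [Field K] {ι κ : Type} {n : ℕ}

/-- the common zeros of `F` with coordinates in `L` -/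
def Zeros (F : ι → MvPolynomial (Fin n) (𝓞 K)) (L : Type)
    [Field L] [Algebra K L] : Set (Fin n → L) :=
  {x | ∀ i, eval₂ ((algebraMap K L).comp (algebraMap (𝓞 K) K)) x (F i) = 0}

/-- Weighted automata of size `r` with `q` letters, over number fields of degree at most `D`, whose
words represent points of `V`: the points outside of `V'` are represented by words of length less
than `Λ = Lam (NA r D) q (r + 1)`, and their number is at most `1 + q + ⋯ + q ^ (Λ - 1)`. -/
def AutomatonBound (F : ι → MvPolynomial (Fin n) (𝓞 K)) (G : κ → MvPolynomial (Fin n) (𝓞 K)) :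
    Prop :=
  ∀ (D r : ℕ) (L : Type) [Field L] [NumberField L] [Algebra K L], Module.finrank ℚ L ≤ D →
    ∀ (A : Type) [Fintype A] (M : Matrix (Fin n) (Fin r) L)
      (μ : A → Matrix (Fin r) (Fin r) L) (v : Fin r → L),
      (∀ w, pt M μ v w ∈ Zeros F L) →
      Set.range (pt M μ v) \ Zeros G L =
        pt M μ v '' {w | w.length < Lam (NA r D) (Fintype.card A) (r + 1)} \ Zeros G L ∧
      (Set.range (pt M μ v) \ Zeros G L).encard ≤
        ((∑ i ∈ Finset.range (Lam (NA r D) (Fintype.card A) (r + 1)), Fintype.card A ^ i : ℕ) : ℕ∞)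

/-- `c`-regular sequences of rank at most `r` of points of `V`, over number fields of degree at most
`D`: the values outside of `V'` occur for arguments less than `c ^ Lam (NA r D) c (r + 1)`. -/
def RegularBound (F : ι → MvPolynomial (Fin n) (𝓞 K)) (G : κ → MvPolynomial (Fin n) (𝓞 K)) :
    Prop :=
  ∀ (D r : ℕ) (L : Type) [Field L] [NumberField L] [Algebra K L], Module.finrank ℚ L ≤ D →
    ∀ c : ℕ, 2 ≤ c → ∀ x : ℕ → Fin n → L, Reg c r x → (∀ m, x m ∈ Zeros F L) →
      Set.range x \ Zeros G L = x '' {m | m < c ^ Lam (NA r D) c (r + 1)} \ Zeros G L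

/-- `b`-regular sequences of `S`-integral points of `V` have only finitely many values outside of
`V'`, for all number fields `L ⊇ K` and all finite sets `S` of primes of `L`. -/
def RegularIntegral (F : ι → MvPolynomial (Fin n) (𝓞 K)) (G : κ → MvPolynomial (Fin n) (𝓞 K))
    (b : ℕ) : Prop :=
  ∀ (L : Type) [Field L] [NumberField L] [Algebra K L] (S : Set (HeightOneSpectrum (𝓞 L))),
    S.Finite → ∀ (r : ℕ) (x : ℕ → Fin n → L), Reg b r x → (∀ m, x m ∈ intPoints F L S) →
      (Set.range x \ intPoints G L S).Finite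

theorem zeros_iff {L : Type} [Field L] [Algebra K L] (F : ι → MvPolynomial (Fin n) (𝓞 K))
    (x : Fin n → L) : x ∈ Zeros F L ↔ ∀ P ∈ mapS F, aeval x P = 0 := by
  constructor
  · rintro h _ ⟨i, rfl⟩
    rw [aeval_mapS]
    exact h i
  · intro h i
    have h1 := h _ ⟨i, rfl⟩
    rwa [aeval_mapS] at h1

theorem not_zeros_iff {L : Type} [Field L] [Algebra K L] (G : κ → MvPolynomial (Fin n) (𝓞 K))
    (x : Fin n → L) : x ∉ Zeros G L ↔ ∃ P ∈ mapS G, aeval x P ≠ 0 := by
  rw [zeros_iff]
  push Not
  rfl

variable [NumberField K] [Finite ι]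

theorem oCond (σ : K →+* ℂ) (F : ι → MvPolynomial (Fin n) (𝓞 K))
    (G : κ → MvPolynomial (Fin n) (𝓞 K)) (h : GmCurvesIn σ F G) (s : ℕ) :
    OCond (mapS F) (mapS G) s :=
  orb_coreA _ _ s (acond_of_noLaurent F G (fun h2 => not_gm_of_hasLaurent σ F G h2 h) (s * s))

theorem automaton_of_gm (σ : K →+* ℂ) (F : ι → MvPolynomial (Fin n) (𝓞 K))
    (G : κ → MvPolynomial (Fin n) (𝓞 K)) (h : GmCurvesIn σ F G) : AutomatonBound F G := by
  intro D r L _ _ _ hD A _ M μ v hX
  have key : Set.range (pt M μ v) \ Zeros G L =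
      pt M μ v '' {w | w.length < Lam (NA r D) (Fintype.card A) (r + 1)} \ Zeros G L := by
    apply Set.Subset.antisymm
    · rintro _ ⟨⟨w, rfl⟩, hw⟩
      obtain ⟨w', h1, h2⟩ := reduce (fun s _ => oCond σ F G h s)
        (specDeg_of_numberField L D hD) μ M v (fun w => (zeros_iff F _).1 (hX w)) _ w rfl
        ((not_zeros_iff G _).1 hw)
      exact ⟨⟨w', h1, h2⟩, hw⟩
    · rintro _ ⟨⟨w, -, rfl⟩, hw⟩
      exact ⟨⟨w, rfl⟩, hw⟩
  refine ⟨key, ?_⟩
  rw [key]
  exact (Set.encard_le_encard Set.sdiff_subset).trans (encard_wordSet_le M μ v _)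

theorem regular_of_gm (σ : K →+* ℂ) (F : ι → MvPolynomial (Fin n) (𝓞 K))
    (G : κ → MvPolynomial (Fin n) (𝓞 K)) (h : GmCurvesIn σ F G) : RegularBound F G := by
  intro D r L _ _ _ hD c hc x hx hX
  apply Set.Subset.antisymm
  · rintro _ ⟨⟨m, rfl⟩, hm⟩
    obtain ⟨m', h1, h2⟩ := reg_small (fun s _ => oCond σ F G h s)
      (specDeg_of_numberField L D hD) hc x hx (fun m => (zeros_iff F _).1 (hX m)) m
      ((not_zeros_iff G _).1 hm)
    exact ⟨⟨m', h1, h2⟩, hm⟩
  · rintro _ ⟨⟨m, -, rfl⟩, hm⟩
    exact ⟨⟨m, rfl⟩, hm⟩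

omit [NumberField K] [Finite ι] in
theorem integral_of_regular (F : ι → MvPolynomial (Fin n) (𝓞 K))
    (G : κ → MvPolynomial (Fin n) (𝓞 K)) (h : RegularBound F G) (b : ℕ) (hb : 2 ≤ b) :
    RegularIntegral F G b := by
  intro L _ _ _ S _ r x hx hX
  have h1 := h _ r L le_rfl b hb x hx (fun m => (hX m).2)
  have h2 : Set.range x \ intPoints G L S ⊆ Set.range x \ Zeros G L := by
    rintro _ ⟨⟨m, rfl⟩, hm⟩
    exact ⟨⟨m, rfl⟩, fun h0 => hm ⟨(hX m).1, h0⟩⟩
  refine Set.Finite.subset ?_ h2
  rw [h1]
  exact ((Set.finite_lt_nat _).image x).subset Set.sdiff_subset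

omit [Finite ι] in
theorem gm_of_integral (σ : K →+* ℂ) (F : ι → MvPolynomial (Fin n) (𝓞 K))
    (G : κ → MvPolynomial (Fin n) (𝓞 K)) (b : ℕ) (hb : 2 ≤ b) (h : RegularIntegral F G b) :
    GmCurvesIn σ F G := by
  by_contra hcon
  obtain ⟨L, i1, i2, i3, S, r, x, hS, hx, hX, hinf⟩ :=
    reg_of_hasLaurent F G (hasLaurent_of_exp F G σ (not_exp_of_not_gm σ F G hcon)) hb
  exact hinf (h L S hS r x hx hX)

theorem result (σ : K →+* ℂ) (F : ι → MvPolynomial (Fin n) (𝓞 K))
    (G : κ → MvPolynomial (Fin n) (𝓞 K)) (b : ℕ) (hb : 2 ≤ b) :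
    List.TFAE [GmCurvesIn σ F G, AutomatonBound F G, RegularBound F G, RegularIntegral F G b] ∧
    (EntireCurvesIn σ F G → AutomatonBound F G) ∧
    (FinitelyManyIntegral F G → AutomatonBound F G) := by
  have hmain : List.TFAE [GmCurvesIn σ F G, AutomatonBound F G, RegularBound F G,
      RegularIntegral F G b] := by
    tfae_have 1 → 2 := automaton_of_gm σ F G
    tfae_have 1 → 3 := regular_of_gm σ F G
    tfae_have 3 → 4 := fun h => integral_of_regular F G h b hb
    tfae_have 4 → 1 := gm_of_integral σ F G b hb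
    tfae_have 2 → 4 := by
      intro h L _ _ _ S _ r x hx hX
      obtain ⟨s, μ, M, v, -, hrep⟩ := hx.exists_rep
      have h1 := (h (Module.finrank ℚ L) s L le_rfl (Fin b) M μ v
        (fun w => by rw [hrep]; exact (hX _).2)).2
      refine (Set.finite_of_encard_le_coe h1).subset ?_
      rintro _ ⟨⟨m, rfl⟩, hm⟩
      obtain ⟨w, hw⟩ := exists_word hb m
      exact ⟨⟨w, by rw [hrep, hw]⟩, fun h0 => hm ⟨(hX m).1, h0⟩⟩
    tfae_finish
  refine ⟨hmain, fun h => ?_, fun h => ?_⟩
  · have h1 : ExpCurvesIn σ F G := exp_of_entire σ F G h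
    exact (hmain.out 0 1).1 (((tfae σ F G).out 0 1 : ExpCurvesIn σ F G ↔ GmCurvesIn σ F G).1 h1)
  · refine (hmain.out 3 1).1 ?_
    intro L _ _ _ S hS r x _ hX
    refine (h L S hS).subset ?_
    rintro _ ⟨⟨m, rfl⟩, hm⟩
    exact ⟨hX m, hm⟩

end Pool.Agent.Results.MP_e97a4d_nt.AutomataEquivalence
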