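import Mathlib
import Pool.Agent.Y215.AF.Main

set_option autoImplicit false

/-!
# The Bombieri-Lang-Vojta equivalence and integral points whose coordinates are sums of few units

Let `V` be an affine variety over a number field `K`, the zeros in affine `n`-space of finitely many
polynomials `F` with coefficients in `𝓞 K`, and `V'` the closed subset of `V` given by `G`.  The
following are equivalent:

* every nonconstant entire curve of exponential type in `V` lies in `V'`;
* every nonconstant map from the punctured line to `V` lies in `V'`;
* for all number fields `L ⊇ K`, all finite sets `S` of primes of `L` and all `r`: only finitely many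
  `S`-integral points of `V` outside `V'` have coordinates which are all sums of at most `r`
  `S`-units;
* for all finitely generated groups `Γ` of algebraic numbers, all number fields `L`, all `r` and `B`:
  only finitely many `L`-rational points of `V` outside `V'` are of the form `∑_{j ≤ r} u_j V_j`,
  where some power of each `u_j` lies in `Γ` and the vectors `V_j` over `Qbar` have height at
  most `B`;
* (heights over `Qbar`) for all such `Γ` and `r` there is a `C` such that
  `h(1 : x) ≤ C (1 + h(1 : V))` for all points `x = ∑ u_j V_j` of `V` outside `V'`, the `V_j` being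
  arbitrary vectors over `Qbar` and some power of each `u_j` lying in `Γ`;
* (approximate version over `Qbar`, with uniform counting) for some explicit `ε(d, r) > 0`, where `d`
  bounds the degrees of `F`, the number of the points of `V(Qbar)` outside `V'` of the form
  `∑ u_j s_j V_j`, some power of each `u_j` lying in `Γ` and `h(1 : s) < ε(d, r)`, is at most
  `A (1 + h(1 : V)) ^ e`, where `A` and `e` depend on `Γ`, but not on `V`.

Both conditions of the Bombieri-Lang-Vojta conjecture imply these.
-/

namespace Pool.Agent.Results.MP_e97a4d_nt.UnitSumEquivalence

open MvPolynomial Pool.Agent.W235.RM Pool.Agent.Y215.AF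
open Pool.Agent.H159R3.Exp (ExpCurvesIn FinitelyManyIntegral)
open scoped NumberField

theorem result {K : Type} [Field K] [NumberField K] (σ : K →+* ℂ) {ι κ : Type} [Finite ι] {n : ℕ}
    (F : ι → MvPolynomial (Fin n) (𝓞 K)) (G : κ → MvPolynomial (Fin n) (𝓞 K)) :
    List.TFAE [ExpCurvesIn σ F G, GmCurvesIn σ F G, UnitSumFinite F G, HullRational F G,
      HullHeights F G, HullNear eps F G] ∧
    (EntireCurvesIn σ F G → UnitSumFinite F G) ∧
    (FinitelyManyIntegral F G → ExpCurvesIn σ F G) := by
  have h := tfaeU σ F G
  refine ⟨?_, fun h1 => ?_, fun h1 => ?_⟩
  · tfae_have 1 ↔ 2 := h.out 0 1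
    tfae_have 1 ↔ 5 := h.out 0 2
    tfae_have 1 ↔ 4 := h.out 0 3
    tfae_have 1 ↔ 6 := h.out 0 4
    tfae_have 1 ↔ 3 := h.out 0 5
    tfae_finish
  · exact (h.out 0 5).1 (exp_of_entire σ F G h1)
  · exact ((tfae σ F G).out 5 0).1 (rec_of_integral F G h1)

end Pool.Agent.Results.MP_e97a4d_nt.UnitSumEquivalence
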