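import Pool.Agent.X316.ZG.Aff

/-!
# The Bombieri-Lang-Vojta equivalence for curves built from the Riemann zeta function

Let `V` be an affine variety over a number field `K`, the zeros in affine `n`-space of finitely many
polynomials `F` with coefficients in `𝓞 K`, and `V'` the closed subset of `V` given by `G`.

A family `u` of meromorphic functions on the plane is called jointly universal if the translates of
every finite subfamily approximate all tuples of zero-free entire functions uniformly on some disc.
By Voronin's theorem this holds for the Riemann zeta function alone.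

The following are equivalent:

* (`BuiltCurvesIn`) every nonconstant entire curve in `V` built from the Riemann zeta function lies in
  `V'`: the coordinates of the curve belong to the smallest set of meromorphic functions on the plane
  which contains the quotients of the functions in `ℂ[ζ, ζ', ζ'', …]` and is closed under sums,
  products and meromorphic solutions of systems `y' = A y` with coefficients in the set. This set
  contains all meromorphic functions which are algebraic over `ℂ(ζ, ζ', ζ'', …)`;
* (`GmCurvesIn`) every nonconstant map from the punctured line to `V` lies in `V'`;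
* (`IteratedFiniteA`) for all fields `L ⊇ K` in `ℂ`, all groups `H` and all families of points of
  `V(L)` with coordinates in a ring of functions on `H` given by iterated recurrences, only finitely
  many of the points are outside `V'`;
* (`SequenceFiniteA`) the same for number fields `L` and sequences of points of `V(L)`, indexed by
  the integers;
* (`DegreeBound`) for all groups and representations `ρ : H → GL_r(L)` over number fields `L ⊇ K` of
  degree at most `D` over `ℚ`, at most `∏_{f = 1}^{D} |GL_r(𝔽_{2^f})| |GL_r(𝔽_{3^f})|` points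
  `M ρ(h) v` of an orbit on `V` are outside `V'`.

The same holds with any jointly universal family in place of the Riemann zeta function. So the
parts of the conditions (i) and (ii) of the Bombieri-Lang-Vojta conjecture which concern these
curves and these families of points are equivalent.

New is the part on the Riemann zeta function and the universal families (`X316/ZG`); the equivalence of
the other conditions is the starting result IteratedEquivalence.
-/

namespace Pool.Agent.Results.MP_e97a4d_nt.UniversalEquivalence

open MvPolynomial Pool.Agent.W235.RM Pool.Agent.TH717.GO Pool.Agent.Y377.AO Pool.Agent.Y377.IR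
open Pool.Agent.H159R3.Exp (FinitelyManyIntegral ExpCurvesIn)
open Pool.Agent.X316.ZG (JointlyUniversal dring BuiltCurvesIn)
open Pool.Agent.Y377.IL (IterLin AlgRatio)
open scoped NumberField

/-- the orbit: the points `M ρ(h) v`, `h` in the group -/
def Orb {L : Type} [Field L] {n r : ℕ} {H : Type} [Group H] (M : Matrix (Fin n) (Fin r) L)
    (ρ : H →* Matrix.GeneralLinearGroup (Fin r) L) (v : Fin r → L) : Set (Fin n → L) :=
  Set.range fun h : H => M.mulVec ((ρ h : Matrix (Fin r) (Fin r) L).mulVec v)

section defs

variable {K : Type} [Field K] {ι κ : Type} {n : ℕ}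

/-- uniform bound for all groups of matrices over number fields of bounded degree -/
def DegreeBound (F : ι → MvPolynomial (Fin n) (𝓞 K)) (G : κ → MvPolynomial (Fin n) (𝓞 K)) :
    Prop :=
  ∀ (r D : ℕ) (L : Type) [Field L] [NumberField L] [Algebra K L], Module.finrank ℚ L ≤ D →
    ∀ (H : Type) [Group H] (ρ : H →* Matrix.GeneralLinearGroup (Fin r) L)
      (M : Matrix (Fin n) (Fin r) L) (v : Fin r → L), Orb M ρ v ⊆ Zeros F L →
      (Orb M ρ v \ Zeros G L).encard ≤ (∏ f ∈ Finset.Icc 1 D,
        ((∏ i ∈ Finset.range r, ((2 ^ f) ^ r - (2 ^ f) ^ i)) *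
          ∏ i ∈ Finset.range r, ((3 ^ f) ^ r - (3 ^ f) ^ i)) : ℕ)

theorem onV_iff {L : Type} [Field L] [Algebra K L] {r : ℕ} {H : Type} [Group H]
    (F : ι → MvPolynomial (Fin n) (𝓞 K)) (M : Matrix (Fin n) (Fin r) L)
    (ρ : H →* Matrix.GeneralLinearGroup (Fin r) L) (v : Fin r → L) :
    OnV (mapS F) M ρ v ↔ Orb M ρ v ⊆ Zeros F L := by
  constructor
  · rintro h _ ⟨g, rfl⟩ i
    have h1 := h g _ ⟨i, rfl⟩
    rwa [aeval_mapS] at h1
  · rintro h g _ ⟨i, rfl⟩
    rw [aeval_mapS]
    exact h ⟨g, rfl⟩ i

theorem off_eq {L : Type} [Field L] [Algebra K L] {r : ℕ} {H : Type} [Group H]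
    (G : κ → MvPolynomial (Fin n) (𝓞 K)) (M : Matrix (Fin n) (Fin r) L)
    (ρ : H →* Matrix.GeneralLinearGroup (Fin r) L) (v : Fin r → L) :
    offSet (mapS G) M ρ v = Orb M ρ v \ Zeros G L := by
  ext x
  constructor
  · rintro ⟨⟨h, rfl⟩, _, ⟨i, rfl⟩, hne⟩
    refine ⟨⟨h, rfl⟩, fun h0 => hne ?_⟩
    rw [aeval_mapS]
    exact h0 i
  · rintro ⟨⟨h, rfl⟩, hne⟩
    have h1 : ¬ ∀ i, eval₂ ((algebraMap K L).comp (algebraMap (𝓞 K) K))
      (M.mulVec ((ρ h : Matrix (Fin r) (Fin r) L).mulVec v)) (G i) = 0 := hne
    push Not at h1
    obtain ⟨i, hi⟩ := h1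
    refine ⟨⟨h, rfl⟩, _, ⟨i, rfl⟩, ?_⟩
    rw [aeval_mapS]
    exact hi

theorem cyclic_finite {F : ι → MvPolynomial (Fin n) (𝓞 K)} {G : κ → MvPolynomial (Fin n) (𝓞 K)}
    (hb : DegreeBound F G) (r : ℕ) (L : Type) [Field L] [NumberField L] [Algebra K L]
    (ρ : Multiplicative ℤ →* Matrix.GeneralLinearGroup (Fin r) L)
    (M : Matrix (Fin n) (Fin r) L) (v : Fin r → L) (h : Orb M ρ v ⊆ Zeros F L) :
    (Orb M ρ v \ Zeros G L).Finite :=
  Set.finite_of_encard_le_coe (hb r _ L le_rfl (Multiplicative ℤ) ρ M v h)

end defs

/-- (1) For curves built from the Riemann zeta function, curves of the multiplicative group, families of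
points given by iterated recurrences over groups, sequences of points given by iterated
recurrences, and orbits of matrix groups with uniform bounds, the conditions are equivalent.

(2) The curves built from any jointly universal family have the same exceptional sets; so the
condition does not depend on the universal family.

(3) The class of functions contains all meromorphic functions which are algebraic over the ring of the
polynomials in the functions `u j` and their derivatives.

(4) The Riemann zeta function is universal. -/
theorem result {K : Type} [Field K] [NumberField K] (σ : K →+* ℂ) {κ κ' : Type} [Finite κ] {n : ℕ}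
    (F : κ → MvPolynomial (Fin n) (𝓞 K)) (G : κ' → MvPolynomial (Fin n) (𝓞 K)) :
    List.TFAE [BuiltCurvesIn (fun _ : Unit => riemannZeta) σ F G, GmCurvesIn σ F G,
      IteratedFiniteA F G, SequenceFiniteA F G, DegreeBound F G] ∧
    (∀ (ι : Type) (u : ι → ℂ → ℂ), JointlyUniversal u →
      (BuiltCurvesIn u σ F G ↔ IteratedFiniteA F G)) ∧
    (∀ (ι : Type) (u : ι → ℂ → ℂ), JointlyUniversal u → ∀ g : ℂ → ℂ, Meromorphic g →
      AlgRatio (dring u) g (fun _ => 1) → IterLin (dring u) g) ∧
    JointlyUniversal fun _ : Unit => riemannZeta := by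
  have h0 := tfae σ F G
  have hgm : GmCurvesIn σ F G → ∀ σ' : K →+* ℂ, GmCurvesIn σ' F G := fun h σ' =>
    ((tfae σ' F G).out 1 5 : GmCurvesIn σ' F G ↔ RecurrenceFinite F G).2
      ((h0.out 1 5 : GmCurvesIn σ F G ↔ RecurrenceFinite F G).1 h)
  have hlau : ¬ HasLaurent F G → GmCurvesIn σ F G := by
    intro h
    by_contra h2
    exact h (hasLaurent_of_exp F G σ (not_exp_of_not_gm σ F G h2))
  have hmain : ∀ (ι : Type) (u : ι → ℂ → ℂ), JointlyUniversal u →
      List.TFAE [BuiltCurvesIn u σ F G, GmCurvesIn σ F G,
      IteratedFiniteA F G, SequenceFiniteA F G, DegreeBound F G] := by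
    intro ι u hu
    tfae_have 1 → 2 := fun h => gm_of_iterCurvesIn (Pool.Agent.X316.ZG.iter_of_built h)
    tfae_have 2 → 1 := Pool.Agent.X316.ZG.built_of_gm hu
    tfae_have 2 → 3 := fun h => iteratedFinite_of_gm (hgm h)
    tfae_have 3 → 4 := sequenceFiniteA_of_iterated
    tfae_have 4 → 2 := fun h => hlau (not_hasLaurent_of_sequence h)
    tfae_have 2 → 5 := by
      intro h r D L _ _ _ hD H _ ρ M v hX
      rw [← off_eq]
      exact uni_coreA (orb_coreA _ _ r (acond_of_noLaurent F G
        (fun h2 => not_gm_of_hasLaurent σ F G h2 h) (r * r)))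
        (specDeg_of_numberField L D hD) ρ M v ((onV_iff F M ρ v).2 hX)
    tfae_have 5 → 2 := by
      intro hb
      apply hlau
      intro hL
      obtain ⟨r, L, iF, iN, iA, ρ, M, v, h2, h3⟩ := conv_hasLaurent F G hL
      rw [off_eq] at h3
      exact h3 (cyclic_finite hb r L ρ M v ((onV_iff F M ρ v).1 h2))
    tfae_finish
  refine ⟨hmain Unit _ Pool.Agent.X316.ZG.zeta_universal, fun ι u hu =>
    (hmain ι u hu).out 0 2, fun ι u hu g hg ha =>
      Pool.Agent.X316.ZG.iterLin_alg (Pool.Agent.X316.ZG.db_dring hu.mero) hg ha,
    Pool.Agent.X316.ZG.zeta_universal⟩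

end Pool.Agent.Results.MP_e97a4d_nt.UniversalEquivalence
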